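import Pool.Agent.helper83.FI.SpecR

set_option autoImplicit false

namespace Pool.Agent.FI

open Pool.Agent.helper58.DC Pool.Agent.DI Pool.Agent.GR Pool.Agent.OB

section
variable {G : Type} [Group G]

/-- the permutation `z ↦ a z b⁻¹` -/
def RGK_pi (a b : G) : Equiv.Perm G where
  toFun z := a * z * b⁻¹
  invFun z := a⁻¹ * z * b
  left_inv z := by group
  right_inv z := by group

theorem RGK_pow (a b : G) (k : ℕ) (z : G) : (RGK_pi a b ^ k) z = a ^ k * z * (b ^ k)⁻¹ := by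
  induction k generalizing z with
  | zero => simp
  | succ k ih =>
    rw [pow_succ, Equiv.Perm.mul_apply, ih]
    change a ^ k * (a * z * b⁻¹) * (b ^ k)⁻¹ = a ^ (k + 1) * z * (b ^ (k + 1))⁻¹
    rw [pow_succ a, pow_succ' b, mul_inv_rev]
    have h : (b ^ k)⁻¹ * b⁻¹ = b⁻¹ * (b ^ k)⁻¹ := by
      rw [← mul_inv_rev, ← mul_inv_rev, ← pow_succ', ← pow_succ]
    rw [h]
    simp only [mul_assoc]

theorem RGK_padic {p : ℕ} {n n₀ : ℕ} (hp : p.Prime) (hn : ¬ p ∣ n₀) {y y' : G}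
    (hy : y ^ p ^ n = 1) (hy' : y' ^ p ^ n = 1) (h : y ^ n₀ = y' ^ n₀) : y = y' := by
  have hc : Nat.Coprime n₀ (p ^ n) :=
    Nat.Coprime.symm (Nat.Coprime.pow_left n ((Nat.Prime.coprime_iff_not_dvd hp).mpr hn))
  have h1 : ∀ g : G, g ^ p ^ n = 1 → (g ^ n₀) ^ (n₀.gcdA (p ^ n)) = g := by
    intro g hg
    have h2 := Nat.gcd_eq_gcd_ab n₀ (p ^ n)
    rw [hc] at h2
    have h3 : g ^ ((n₀ : ℤ) * n₀.gcdA (p ^ n) + ((p ^ n : ℕ) : ℤ) * n₀.gcdB (p ^ n)) = g := by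
      rw [← h2]
      simp
    rw [zpow_add, zpow_mul, zpow_mul, zpow_natCast, zpow_natCast, hg, one_zpow, mul_one] at h3
    exact h3
  rw [← h1 y hy, h, h1 y' hy']

theorem RGK_fix {p : ℕ} {n n₀ : ℕ} (hp : p.Prime) (hn : ¬ p ∣ n₀) {y y' z : G}
    (hy : y ^ p ^ n = 1) (hy' : y' ^ p ^ n = 1) (h : y ^ n₀ * z * (y' ^ n₀)⁻¹ = z) : z⁻¹ * y * z = y' := by
  have h4 : (z⁻¹ * y * z) ^ n₀ = y' ^ n₀ := by
    have h5 : (z⁻¹ * y * z) ^ n₀ = z⁻¹ * y ^ n₀ * z := by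
      have := conj_pow (a := z⁻¹) (b := y) (i := n₀)
      rw [inv_inv] at this
      exact this
    rw [h5]
    have h6 : y ^ n₀ * z = z * y' ^ n₀ := by
      calc y ^ n₀ * z = (y ^ n₀ * z * (y' ^ n₀)⁻¹) * y' ^ n₀ := by group
        _ = z * y' ^ n₀ := by rw [h]
    rw [mul_assoc, h6, inv_mul_cancel_left]
  refine RGK_padic hp hn ?_ hy' h4
  have h5 : (z⁻¹ * y * z) ^ p ^ n = z⁻¹ * y ^ p ^ n * z := by
    have := conj_pow (a := z⁻¹) (b := y) (i := p ^ n)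
    rw [inv_inv] at this
    exact this
  rw [h5, hy]
  group

end

theorem RGK_idem (hCOF : COF_stmt) (G : Type) [Group G] [Finite G] (H : Subgroup G) [Fintype H] (M : Ideal (integralClosure ℤ ℂ))
    (i j : G → ℂ) (hi : Idm M H i) (hj : Idm M H j) (z w : H) :
    ∑ u : H, co i j z u * co i j u w = co i j z w := by
  classical
  have := Fintype.ofFinite G
  have h1 := (hCOF G).1 i j i j z w
  rw [hi.idem, hj.idem, finsum_eq_sum_of_fintype] at h1
  rw [← h1]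
  apply Finset.sum_of_injOn (fun x : H => (x : G))
  · intro x _ x' _ h
    exact Subtype.ext h
  · intro x _
    exact Finset.mem_univ _
  · intro x _ hx
    have hxH : x ∉ H := fun h => hx ⟨⟨x, h⟩, by simp, rfl⟩
    have := (hCOF G).2.1 H i j hi.sup hj.sup z x (Or.inl ⟨z.2, hxH⟩)
    rw [this, zero_mul]
  · intro x _
    rfl

theorem RGK (hRGM : RGM_stmt) (hTRC : TRC_stmt) (hCOF : COF_stmt) (hZEA : ZEA_stmt) : RGK_stmt := by
  intro p M hS G _ _ H y hy v hv y' hy' v' hv' hpy hpy' hrv hrv' hyv hyv' i j i' j' hi hj hi' hj' hii hii' hjj hjj' hlast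
  classical
  have : Fintype G := Fintype.ofFinite G
  have : Fintype H := Fintype.ofFinite H
  set a : H := ⟨y * v, H.mul_mem hy hv⟩ with ha
  set b : H := ⟨y' * v', H.mul_mem hy' hv'⟩ with hb
  obtain ⟨k, hk⟩ := hpy
  obtain ⟨k', hk'⟩ := hpy'
  set n : ℕ := max k k' with hn
  have hyn : y ^ p ^ n = 1 := by
    obtain ⟨c, hc⟩ := Nat.pow_dvd_pow p (le_max_left k k')
    rw [hn, hc, pow_mul, hk, one_pow]
  have hyn' : y' ^ p ^ n = 1 := by
    obtain ⟨c, hc⟩ := Nat.pow_dvd_pow p (le_max_right k k')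
    rw [hn, hc, pow_mul, hk', one_pow]
  set n₀ : ℕ := orderOf v * orderOf v' with hn₀
  have hpn : ¬ p ∣ n₀ := by
    intro h
    rcases (hS.pr.dvd_mul).mp h with h | h
    · exact hrv h
    · exact hrv' h
  have hvn : v ^ n₀ = 1 := by rw [hn₀, pow_mul, pow_orderOf_eq_one, one_pow]
  have hvn' : v' ^ n₀ = 1 := by rw [hn₀, mul_comm, pow_mul, pow_orderOf_eq_one, one_pow]
  have han : (y * v) ^ n₀ = y ^ n₀ := by rw [hyv.mul_pow, hvn, mul_one]
  have hbn : (y' * v') ^ n₀ = y' ^ n₀ := by rw [hyv'.mul_pow, hvn', mul_one]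
  have haN : (y * v) ^ (p ^ n * n₀) = 1 := by
    rw [mul_comm, pow_mul, han, ← pow_mul, mul_comm, pow_mul, hyn, one_pow]
  have hbN : (y' * v') ^ (p ^ n * n₀) = 1 := by
    rw [mul_comm, pow_mul, hbn, ← pow_mul, mul_comm, pow_mul, hyn', one_pow]
  have hfix : ∀ z : H, (RGK_pi a b ^ n₀) z = z → (z : G)⁻¹ * y * z = y' := by
    intro z hz
    rw [RGK_pow] at hz
    have h1 : (a : G) ^ n₀ * z * ((b : G) ^ n₀)⁻¹ = z := by
      have := congrArg (fun x : H => (x : G)) hz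
      simpa using this
    have h2 : (a : G) ^ n₀ = y ^ n₀ := han
    have h3 : (b : G) ^ n₀ = y' ^ n₀ := hbn
    rw [h2, h3] at h1
    exact RGK_fix hS.pr hpn hyn hyn' h1
  have htr : ∀ i j : G → ℂ, Idm M H i → Idm M H j → ∑ z : H, co i j z (RGK_pi a b z : H) =
      ∑ᶠ χ ∈ IrrOn H, ev χ i (y * v) * ev χ j (y' * v')⁻¹ := by
    intro i j hi hj
    rw [← hTRC G H i j hi.sup hj.sup (y * v) (H.mul_mem hy hv) (y' * v') (H.mul_mem hy' hv'), ← finsum_set_coe_eq_finsum_mem]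
    refine Eq.symm (Eq.trans (finsum_eq_sum_of_fintype (α := H)
      (fun z : H => co i j (z : G) ((y * v) * z * (y' * v')⁻¹))) ?_)
    rfl
  have key := hRGM p M hS H (fun z w => co i j (z : G) w) (fun z w => co i' j' (z : G) w) (RGK_pi a b) n n₀ hpn ?_
    (fun z w => (hCOF G).2.2.2.1 p M hS i j hi.int hj.int z w) (fun z w => (hCOF G).2.2.2.1 p M hS i' j' hi'.int hj'.int z w)
    (fun z w => RGK_idem hCOF G H M i j hi hj z w) (fun z w => RGK_idem hCOF G H M i' j' hi' hj' z w)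
    (fun z w => (hCOF G).2.2.1 i j (y * v) (y' * v') hii hjj z w)
    (fun z w => (hCOF G).2.2.1 i' j' (y * v) (y' * v') hii' hjj' z w)
    (fun z w hz hw => hlast z z.2 w w.2 (hfix z hz) (hfix w hw))
  · have h9 := hZEA p M hS _ key
    rw [htr i j hi hj, htr i' j' hi' hj'] at h9
    exact sub_eq_zero.1 h9
  · ext z
    rw [RGK_pow]
    simp only [Subgroup.coe_mul, Subgroup.coe_inv, Subgroup.coe_pow, Equiv.Perm.coe_one, id_eq]
    have h2 : (a : G) ^ (p ^ n * n₀) = 1 := haN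
    have h3 : (b : G) ^ (p ^ n * n₀) = 1 := hbN
    rw [h2, h3]
    simp

end Pool.Agent.FI
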